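import Pool.Agent.W973.IP.Main

/-!
# Existence of isolated points of semialgebraic sets is `∃∀ℝ`-complete

An instance is a dimension `n` (in unary) and a quantifier-free formula `φ` over
`(0, 1, +, -, ·, =, <, ≤)`; the question is whether the set `{x ∈ ℝⁿ : φ(x)}` has an isolated
point. Every language in `∃∀ℝ` reduces to this problem.

## The proof

A sentence of `∃∀ℝ` is brought to the form `∃ u ∀ w, P(u, w) ≠ 0`, where `P ≥ 0` is a polynomial
of degree 4. Consider `G(u, w) = P(u, w) X(w)^N - c ∑ u_l^6 + e Q(u, w)`, `X(w) = 1 + ∑ w_j²`,
where the coefficients of the perturbation `Q` are iterated square roots of `2`.

* For small `c` and for `e = c^N'` the sentence is true if and only if there is `u` with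
  `G(u, w) > c` for all `w`, equivalently if this holds for some `u` at which `min_w G(u, w)` is
  maximal, hence for the first component `u` of some Fritz John point: points `u`, distinct
  minimisers `w_0, …, w_r` with the same value `v` and positive weights whose combination of the
  gradients with respect to `u` vanishes.
* The word small is explicit: the set of `(c, e)` for which the answer is the same is found by a
  connectedness argument, as there is no Fritz John point with `v = c`: the coefficients of the
  perturbation satisfy no polynomial relation of small degree. So one can take `c = 2^(-2^K)`,
  which is defined by a chain of squarings.
* By the same argument there are only finitely many Fritz John points, so that they form a finite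
  semialgebraic set `F`, given by a formula of polynomial length.
* The universal condition (`G(u, w) > c` for all `w`) is coded by attaching to each point of `F`
  small homothetic copies of the solutions of its negation: a point of `F` remains isolated if and
  only if the negation has no solution, and the copies are never isolated.
-/

set_option autoImplicit false

namespace Pool.Agent.Results.MP_47d501_lc.IsolatedPointComplete

open Pool.Agent.NPC Pool.Agent.NPC.ER Pool.Agent.W973.IP

/-- ISOLATED-POINT-EXISTENCE is `∃∀ℝ`-complete. -/
theorem result : EARComplete (lang IsoPt) := isoPt_complete

end Pool.Agent.Results.MP_47d501_lc.IsolatedPointComplete
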